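import Pool.Agent.BEH.StmtsD
import Pool.Agent.Helper90_BEL.AVO
import Pool.Agent.Helper76_BEL.TRN

/-!
# Squad BEH, row AVU: averages, with the constant before the domain (the last step is that of
Helper90_BEL/AVO)
-/

set_option autoImplicit false

namespace Pool.Agent.BEH.H23

open Set Filter Topology MeasureTheory
open scoped InnerProductSpace ENNReal
open Pool.Agent.BE01 Pool.Agent.BEL Pool.Agent.BEL.H90

noncomputable section

/-- **AVU** -/
theorem avu : AvuStmt := by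
  have htrn : TrnStmt := Pool.Agent.BEL.H76.trn
  intro d hd
  refine ⟨cst d, cst_pos, fun Ω ι hΩ hι r hr => ?_⟩
  have : IsFiniteMeasure (mu Ω) := Pool.Agent.BE01.H91.mu_fin hΩ
  refine ⟨AA Ω hr, ?_, ?_, ?_⟩
  · intro f
    rw [← vb_rpow hd hr]
    exact AA_bd Ω hr f
  · intro f
    rw [← vb_rpow hd hr]
    exact AA_one Ω hr f
  · have hcl : IsClosed {G : VV Ω | ‖ι G - AA Ω hr (ι G)‖ ≤ r * ‖G‖} :=
      isClosed_le (by fun_prop) (by fun_prop)
    intro G
    refine (Pool.Agent.BE01.H91.ge_dense Ω).induction_on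
      (p := fun G => ‖ι G - AA Ω hr (ι G)‖ ≤ r * ‖G‖) G hcl ?_
    intro ψ
    set G := Pool.Agent.BE01.H91.ge Ω ψ with hG
    have hGψ : ((G : VV Ω) : Lp (En d) 2 (mu Ω)) =ᵐ[mu Ω] gradient ψ.1 :=
      Pool.Agent.BE01.H91.gr_ae Ω ψ
    have h1 : ι G =ᵐ[mu Ω] ψ.1 := hι ψ.1 ψ.2 G hGψ
    have h2 : AA Ω hr (ι G) =ᵐ[mu Ω] av (mu Ω) r ψ.1 :=
      (AA_ae Ω hr (ι G)).trans (Eventually.of_forall fun x => av_congr _ _ h1 x)
    -- the squares of the norms
    have h3 : ‖ι G - AA Ω hr (ι G)‖ ^ 2 = ∫ x, (ψ.1 x - av (mu Ω) r ψ.1 x) ^ 2 ∂(mu Ω) := by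
      rw [← real_inner_self_eq_norm_sq, inner_eq]
      refine integral_congr_ae ?_
      filter_upwards [Lp.coeFn_sub (ι G) (AA Ω hr (ι G)), h1, h2] with x h4 h5 h6
      rw [h4, Pi.sub_apply, h5, h6, pow_two]
    have h4 : ‖G‖ ^ 2 = ∫ x, ‖gradient ψ.1 x‖ ^ 2 := by
      have e1 : ‖G‖ ^ 2 = ∫ x, ‖gradient ψ.1 x‖ ^ 2 ∂(mu Ω) := by
        have e2 : ‖G‖ = ‖((G : VV Ω) : Lp (En d) 2 (mu Ω))‖ := rfl
        rw [e2, ← real_inner_self_eq_norm_sq, L2.inner_def]
        refine integral_congr_ae ?_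
        filter_upwards [hGψ] with x hx
        rw [hx, real_inner_self_eq_norm_sq]
      rw [e1]
      unfold mu
      rw [setIntegral_eq_integral_of_forall_compl_eq_zero]
      intro x hx
      rw [grad_out ψ.2 hx, norm_zero]
      norm_num
    have h5 : ∫ x, (ψ.1 x - av (mu Ω) r ψ.1 x) ^ 2 ∂(mu Ω) ≤ r ^ 2 * ‖G‖ ^ 2 := by
      rw [h4]
      have hint : Integrable (fun x => (ψ.1 x - av (mu Ω) r ψ.1 x) ^ 2) (mu Ω) := by
        have a1 : MemLp (fun x => (ι G - AA Ω hr (ι G) : Lp ℝ 2 (mu Ω)) x) 2 (mu Ω) :=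
          Lp.memLp _
        refine a1.integrable_sq.congr ?_
        filter_upwards [Lp.coeFn_sub (ι G) (AA Ω hr (ι G)), h1, h2] with x h4 h5 h6
        rw [h4, Pi.sub_apply, h5, h6]
      have h6 := tst_bd htrn ψ.2 hr
      rw [← ofReal_integral_eq_lintegral_ofReal hint
        (Eventually.of_forall fun x => sq_nonneg _)] at h6
      refine (ENNReal.ofReal_le_ofReal_iff ?_).1 h6
      exact mul_nonneg (sq_nonneg _) (integral_nonneg fun x => sq_nonneg _)
    rw [← h3, ← mul_pow] at h5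
    exact (pow_le_pow_iff_left₀ (norm_nonneg _) (by positivity) two_ne_zero).1 h5

end

end Pool.Agent.BEH.H23
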